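import Pool.Agent.W843.Lnk.R4.C00
import Pool.Agent.W843.Lnk.R4.C01
import Pool.Agent.W843.Lnk.R4.C10
import Pool.Agent.W843.Lnk.R4.C11
import Pool.Agent.W843.Lnk.R4.D00
import Pool.Agent.W843.Lnk.R4.D01
import Pool.Agent.W843.Lnk.R4.D10
import Pool.Agent.W843.Lnk.R4.D11
import Pool.Agent.W843.Lnk.R4.Psd

/-! The inequality for 3-graphs and the bound. -/

set_option autoImplicit false
set_option maxRecDepth 100000
set_option maxHeartbeats 4000000
open Finset

namespace Pool.Agent.W843.Lnk.R4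

open Pool.Agent.H122R2.N6 hiding TB tg walk walk_all chk chk_sound rep_good walk_good leaf_all
open Pool.Agent.W846.K54 (tg)
open Pool.Agent.W843.Lnk (chk5 leaf_all5 bound5 TW density_le)
open Pool.Agent.W843.Lnk.N6s (chk7 card_le7)
open Pool.Agent.H120R2.Clique

theorem hc (b012 b013 b023 b123 b014 b024 b124 b034 b134 b234 : ℕ) (hb012 : Bt b012) (hb013 : Bt b013) (hb023 : Bt b023) (hb123 : Bt b123) (hb014 : Bt b014) (hb024 : Bt b024) (hb124 : Bt b124) (hb034 : Bt b034) (hb134 : Bt b134) (hb234 : Bt b234) (ht : tg b012 b013 b023 b123 b014 b024 b124 b034 b134 b234 = 4) :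
    chk5 ww q4 q2 CST b012 b013 b023 b123 b014 b024 b124 b034 b134 b234 = true := by
  have key : ∀ x y : ℕ, (B2 fun b023 => B2 fun b123 => B2 fun b014 => B2 fun b024 => B2 fun b124 => B2 fun b034 => B2 fun b134 => B2 fun b234 => or (not (Nat.beq (tg x y b023 b123 b014 b024 b124 b034 b134 b234) 4)) (chk5 ww q4 q2 CST x y b023 b123 b014 b024 b124 b034 b134 b234)) = true →
      tg x y b023 b123 b014 b024 b124 b034 b134 b234 = 4 → chk5 ww q4 q2 CST x y b023 b123 b014 b024 b124 b034 b134 b234 = true := by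
    intro x y h ht
    have h2 := (B2_true (B2_true (B2_true (B2_true (B2_true (B2_true (B2_true (B2_true h hb023) hb123) hb014) hb024) hb124) hb034) hb134) hb234)
    refine or_false_left h2 ?_
    rw [ht]
    rfl
  rcases hb012 with rfl | rfl <;> rcases hb013 with rfl | rfl
  · exact key 0 0 part00 ht
  · exact key 0 1 part01 ht
  · exact key 1 0 part10 ht
  · exact key 1 1 part11 ht

theorem hd (b012 b013 b023 b123 b014 b024 b124 b034 b134 b234 : ℕ) (hb012 : Bt b012) (hb013 : Bt b013) (hb023 : Bt b023) (hb123 : Bt b123) (hb014 : Bt b014) (hb024 : Bt b024) (hb124 : Bt b124) (hb034 : Bt b034) (hb134 : Bt b134) (hb234 : Bt b234) (ht : tg b012 b013 b023 b123 b014 b024 b124 b034 b134 b234 = 4) :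
    chk7 ww 8453706105 563580411 b012 b013 b023 b123 b014 b024 b124 b034 b134 b234 = true := by
  have key : ∀ x y : ℕ, (B2 fun b023 => B2 fun b123 => B2 fun b014 => B2 fun b024 => B2 fun b124 => B2 fun b034 => B2 fun b134 => B2 fun b234 => or (not (Nat.beq (tg x y b023 b123 b014 b024 b124 b034 b134 b234) 4)) (chk7 ww 8453706105 563580411 x y b023 b123 b014 b024 b124 b034 b134 b234)) = true →
      tg x y b023 b123 b014 b024 b124 b034 b134 b234 = 4 → chk7 ww 8453706105 563580411 x y b023 b123 b014 b024 b124 b034 b134 b234 = true := by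
    intro x y h ht
    have h2 := (B2_true (B2_true (B2_true (B2_true (B2_true (B2_true (B2_true (B2_true h hb023) hb123) hb014) hb024) hb124) hb034) hb134) hb234)
    refine or_false_left h2 ?_
    rw [ht]
    rfl
  rcases hb012 with rfl | rfl <;> rcases hb013 with rfl | rfl
  · exact key 0 0 dart00 ht
  · exact key 0 1 dart01 ht
  · exact key 1 0 dart10 ht
  · exact key 1 1 dart11 ht

theorem vv_zero {k : ℕ} (hk : k < 5) : (vv k : ℤ) = 0 := by
  interval_cases k <;> rfl

theorem three {n : ℕ} (hn : 0 < n) (E : Fin n → Fin n → Fin n → ℕ) (hE : Sy E) :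
    6 * TW E ww ≤ 5887496842 * (n : ℤ) ^ 5 := by
  have hb := bound5 E hE ww 64 16 CST q4 (fun _ _ => 1) (fun c i k => l4 (rho c) (pc c i) k)
    q2 (fun _ => 1) l2 32768 1073741824 1073741824
    (fun c i j h1 h2 h3 => by
      have h := hq4 c i j h1 h2 h3
      rw [vv_zero (rho_lt h1)] at h
      exact h) hq2
    (leaf_all5 hE hw cs4 cs2 hc)
  have hC : (CST : ℤ) = 70312006282 := rfl
  rw [hC, Fintype.card_fin] at hb
  have hn' : (0 : ℤ) < (n : ℤ) := by exact_mod_cast hn
  have h2 : (n : ℤ) * (6 * TW E ww) ≤ (n : ℤ) * (5887496842 * (n : ℤ) ^ 5) := by linarith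
  exact le_of_mul_le_mul_left h2 hn'

theorem edges {n : ℕ} (hn : 0 < n) {G : Finset (Finset (Fin n))} (hr : ∀ A ∈ G, A.card = 4)
    (hK : ¬ HasClique G 4 5) : (24 : ℝ) * (G.card : ℝ) ≤ 0.69644 * (n : ℝ) ^ 4 := by
  have h := card_le7 hn hr hK hw hd (fun E hE => three hn E hE)
  have h2 : (90 : ℝ) * (563580411 * (24 * (G.card : ℝ))) ≤ ((6 * 5887496842 - 6 * 8453706105 + 90 * 563580411 : ℤ) : ℝ) * (n : ℝ) ^ 4 := by
    have h3 : (90 : ℤ) * (563580411 * (24 * (G.card : ℤ))) ≤ (6 * 5887496842 - 6 * 8453706105 + 90 * 563580411) * (n : ℤ) ^ 4 := by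
      push_cast at h
      linarith
    exact_mod_cast h3
  have hp : (0 : ℝ) ≤ (n : ℝ) ^ 4 := by positivity
  norm_num at h2
  nlinarith

theorem main : turanDensity 4 5 ≤ 0.69644 := by
  classical
  refine density_le fun n hn => ?_
  have hne : ((((univ : Finset (Fin n)).powersetCard 4).powerset).filter
      (fun G => ¬ HasClique G 4 5)).Nonempty := by
    refine ⟨∅, ?_⟩
    rw [mem_filter, mem_powerset]
    refine ⟨empty_subset _, ?_⟩
    rintro ⟨A, hA, hs⟩
    have : (A.powersetCard 4).Nonempty := powersetCard_nonempty.mpr (by omega)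
    obtain ⟨x, hx⟩ := this
    exact absurd (hs hx) (by simp)
  obtain ⟨G, hG, he⟩ := Finset.exists_mem_eq_sup _ hne Finset.card
  have h2 : ex n 4 5 = G.card := by
    unfold ex
    rw [← he]
  rw [mem_filter, mem_powerset] at hG
  have h1 := edges hn (fun A hA => (mem_powersetCard.mp (hG.1 hA)).2) hG.2
  rw [h2]
  have hf : ((Nat.factorial 4 : ℕ) : ℝ) = 24 := by norm_num [Nat.factorial]
  rw [hf]
  exact h1

end Pool.Agent.W843.Lnk.R4
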